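import Mathlib

set_option autoImplicit false

/-!
Rank-symmetric unimodal normalized matching posets, the width, rank-symmetric chains, `g` and `f`.
-/

namespace Pool.Agent.Helper73.FS

open Finset

/-- The level `A_i` of a poset with level function `lv`. -/
def level {P : Type} [Fintype P] (lv : P → ℕ) (i : ℕ) : Finset P :=
  univ.filter fun x => lv x = i

open Classical in
/-- `P` is a nonempty, graded poset with levels `A_0, …, A_n` (where `A_i` is `level lv i`), it is
rank-symmetric and unimodal, and it is a normalized matching poset. -/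
structure Admissible {P : Type} [PartialOrder P] [Fintype P] (n : ℕ) (lv : P → ℕ) : Prop where
  nonempty : Nonempty P
  lv_le : ∀ x, lv x ≤ n
  lv_minimal : ∀ x, IsMin x → lv x = 0
  lv_covers : ∀ x y, x ⋖ y → lv y = lv x + 1
  symm : ∀ i ≤ n, (level lv i).card = (level lv (n - i)).card
  unimodal : ∃ m ≤ n, (∀ i < m, (level lv i).card ≤ (level lv (i + 1)).card) ∧
    ∀ i, m ≤ i → i < n → (level lv (i + 1)).card ≤ (level lv i).card
  matching : ∀ i < n, ∀ X ⊆ level lv i, X.Nonempty →
    (X.card : ℚ) / (level lv i).card ≤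
      (((level lv (i + 1)).filter fun y => ∃ x ∈ X, x < y).card : ℚ) / (level lv (i + 1)).card

/-- The width: the largest size of an antichain. -/
noncomputable def width (P : Type) [PartialOrder P] [Fintype P] : ℕ :=
  sSup {k | ∃ s : Finset P, IsAntichain (· ≤ ·) (s : Set P) ∧ s.card = k}

/-- A rank-symmetric chain. -/
def IsRankSymmChain {P : Type} [PartialOrder P] (n : ℕ) (lv : P → ℕ) (C : Finset P) : Prop :=
  IsChain (· ≤ ·) (C : Set P) ∧
    ∀ i ≤ n, (C.filter fun x => lv x = i).card = (C.filter fun x => lv x = n - i).card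

/-- `P` can be partitioned into (nonempty) rank-symmetric chains each of size at least `k`. -/
def HasPartition {P : Type} [PartialOrder P] (n : ℕ) (lv : P → ℕ) (k : ℕ) : Prop :=
  ∃ 𝒞 : Finset (Finset P), (∀ C ∈ 𝒞, C.Nonempty ∧ IsRankSymmChain n lv C ∧ k ≤ C.card) ∧
    ∀ x : P, ∃! C, C ∈ 𝒞 ∧ x ∈ C

/-- `g(P)`: the largest `k` such that `P` can be partitioned into rank-symmetric chains each of
size at least `k`. -/
noncomputable def g {P : Type} [PartialOrder P] (n : ℕ) (lv : P → ℕ) : ℕ :=
  sSup {k | HasPartition n lv k}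

/-- The set `ℛ` of the ratios `|P| / w(P)` over admissible `P`. -/
def ratios : Set ℚ :=
  {r | ∃ (P : Type) (_ : PartialOrder P) (_ : Fintype P) (n : ℕ) (lv : P → ℕ),
    Admissible n lv ∧ (Fintype.card P : ℚ) = r * width P}

/-- `f(r)`: the least value of `g(P)` over admissible `P` with `|P| = r w(P)`. -/
noncomputable def f (r : ℚ) : ℕ :=
  sInf {k | ∃ (P : Type) (_ : PartialOrder P) (_ : Fintype P) (n : ℕ) (lv : P → ℕ),
    Admissible n lv ∧ (Fintype.card P : ℚ) = r * width P ∧ g n lv = k}

end Pool.Agent.Helper73.FS
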