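import Pool.Agent.Helper73.FS.Defs

set_option autoImplicit false
set_option linter.unusedSectionVars false

/-!
Rank-symmetric unimodal normalized matching posets with `|P| = (m + 1) w(P)`, for every `m ≥ 1`,
in which every partition into rank-symmetric chains has a chain of size one: proofs.
-/

namespace Pool.Agent.Helper73.FS

open Finset Filter

/-! ### Arithmetic of nodes -/

/-- The number of nodes. -/
def NN (m : ℕ) : ℕ := m * (m + 1).factorial

/-- The number of indices at level `h`. -/
def wid (m h : ℕ) : ℕ := min (h + 1) (2 * m + 1 - h)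

/-- The break level of a node (`m + 1` if it never breaks). -/
def br (m s : ℕ) : ℕ := if (m - s % m).factorial ∣ s / m then s % m + 1 else m + 1

/-- The siblings of a node. -/
def sib (m s r : ℕ) : ℕ :=
  m * ((m + 1 - s % m).factorial * (s / m / (m + 1 - s % m).factorial) +
    (m - s % m).factorial * r) + s % m

/-- The index of a node among its siblings. -/
def idx (m s : ℕ) : ℕ := s / m / (m - s % m).factorial % (m + 1 - s % m)

/-- The relation between an element with node `s` and index `i` at distance `j - 1` below the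
middle, and an element with node `s'` and index `i'` at distance `j` below the middle. -/
def dn (m j s i s' i' : ℕ) : Prop :=
  (j < br m s ∧ s' = s ∧ (i = 0 → i' = 0)) ∨
  (br m s = j ∧ (∃ r < m + 2 - j, s' = sib m s r) ∧ (i = 0 → s' = sib m s 0)) ∨
  (br m s < j ∧ s' = s)

/-- The right group of an element at level `h ≥ m`. -/
def rt (m h s i : ℕ) : ℕ := if h = m ∧ i = 0 then (s + 1) % NN m else s

lemma wid_low {m h : ℕ} (h1 : h ≤ m) : wid m h = h + 1 := by unfold wid; omega

lemma wid_up {m h : ℕ} (h1 : m ≤ h) : wid m h = 2 * m + 1 - h := by unfold wid; omega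

lemma fact_split {m b : ℕ} (hb : b ≤ m) :
    (m + 1 - b).factorial = (m + 1 - b) * (m - b).factorial := by
  have : m + 1 - b = (m - b) + 1 := by omega
  rw [this, Nat.factorial_succ]

section sibling

variable {m : ℕ} (hm : 1 ≤ m) {s : ℕ}

include hm

lemma mod_lt' : s % m < m := Nat.mod_lt _ hm

lemma sib_mod (r : ℕ) : sib m s r % m = s % m := by
  unfold sib
  rw [Nat.mul_add_mod, Nat.mod_mod]

lemma sib_div (r : ℕ) : sib m s r / m =
    (m + 1 - s % m).factorial * (s / m / (m + 1 - s % m).factorial) +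
      (m - s % m).factorial * r := by
  unfold sib
  rw [Nat.mul_add_div (by omega), Nat.div_eq_of_lt (Nat.mod_lt _ hm), Nat.add_zero]

lemma sib_div_div {r : ℕ} (hr : r < m + 1 - s % m) :
    sib m s r / m / (m + 1 - s % m).factorial = s / m / (m + 1 - s % m).factorial := by
  have hb : s % m ≤ m := (Nat.mod_lt _ hm).le
  have h : (m - s % m).factorial * r < (m + 1 - s % m).factorial := by
    rw [fact_split hb, Nat.mul_comm (m + 1 - s % m)]
    exact Nat.mul_lt_mul_of_pos_left hr (Nat.factorial_pos _)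
  rw [sib_div hm, Nat.mul_add_div (Nat.factorial_pos _), Nat.div_eq_of_lt h, Nat.add_zero]

lemma sib_sib {r r' : ℕ} (hr : r < m + 1 - s % m) : sib m (sib m s r) r' = sib m s r' := by
  have h1 := sib_mod hm (s := s) r
  have h2 := sib_div_div hm hr
  have h3 : ∀ u, sib m u r' =
    m * ((m + 1 - u % m).factorial * (u / m / (m + 1 - u % m).factorial) +
    (m - u % m).factorial * r') + u % m := fun _ => rfl
  rw [h3 (sib m s r), h3 s, h1, h2]

lemma br_sib {r : ℕ} : br m (sib m s r) = s % m + 1 := by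
  unfold br
  rw [sib_mod hm, sib_div hm, if_pos]
  have hb : s % m ≤ m := (Nat.mod_lt _ hm).le
  rw [fact_split hb]
  exact Dvd.dvd.add (Dvd.dvd.mul_right (Dvd.intro_left _ rfl) _) (Dvd.intro _ rfl)

lemma sib_lt {r : ℕ} (hs : s < NN m) (hr : r < m + 1 - s % m) : sib m s r < NN m := by
  have hb : s % m ≤ m := (Nat.mod_lt _ hm).le
  have h0 : s / m < (m + 1).factorial := by
    rw [Nat.div_lt_iff_lt_mul hm, Nat.mul_comm]; exact hs
  have h1 : sib m s r / m < (m + 1).factorial := by
    rw [sib_div hm]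
    obtain ⟨k, hk⟩ : (m + 1 - s % m).factorial ∣ (m + 1).factorial :=
      Nat.factorial_dvd_factorial (by omega)
    set C := (m + 1 - s % m).factorial with hC
    have hCpos : 0 < C := Nat.factorial_pos _
    have h2 : s / m / C < k := by
      rw [Nat.div_lt_iff_lt_mul hCpos, Nat.mul_comm, ← hk]; exact h0
    have h3 : (m - s % m).factorial * r < C := by
      rw [hC, fact_split hb, Nat.mul_comm (m + 1 - s % m)]
      exact Nat.mul_lt_mul_of_pos_left hr (Nat.factorial_pos _)
    calc C * (s / m / C) + (m - s % m).factorial * r < C * (s / m / C) + C := by omega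
      _ = C * (s / m / C + 1) := by ring
      _ ≤ C * k := Nat.mul_le_mul_left _ h2
      _ = (m + 1).factorial := hk.symm
  have h4 : sib m s r = m * (sib m s r / m) + sib m s r % m := (Nat.div_add_mod _ _).symm
  have h5 : sib m s r % m < m := Nat.mod_lt _ hm
  calc sib m s r = m * (sib m s r / m) + sib m s r % m := h4
    _ < m * (sib m s r / m) + m := by omega
    _ = m * (sib m s r / m + 1) := by ring
    _ ≤ m * (m + 1).factorial := Nat.mul_le_mul_left _ h1
    _ = NN m := rfl

lemma idx_lt : idx m s < m + 1 - s % m := by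
  have hb : s % m < m := Nat.mod_lt _ hm
  exact Nat.mod_lt _ (by omega)

lemma sib_idx (h : br m s = s % m + 1) : sib m s (idx m s) = s := by
  have hb : s % m < m := Nat.mod_lt _ hm
  have hd : (m - s % m).factorial ∣ s / m := by
    by_contra hc
    unfold br at h
    rw [if_neg hc] at h
    omega
  obtain ⟨k, hk⟩ := hd
  have h0 : idx m s = k % (m + 1 - s % m) := by
    unfold idx
    rw [hk, Nat.mul_div_cancel_left _ (Nat.factorial_pos _)]
  rw [h0]
  unfold sib
  rw [fact_split hb.le]
  have h1 : s / m / ((m + 1 - s % m) * (m - s % m).factorial) = k / (m + 1 - s % m) := by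
    rw [hk, Nat.mul_comm (m + 1 - s % m), ← Nat.div_div_eq_div_mul,
      Nat.mul_div_cancel_left _ (Nat.factorial_pos _)]
  rw [h1]
  have h2 : (m + 1 - s % m) * (m - s % m).factorial * (k / (m + 1 - s % m)) +
      (m - s % m).factorial * (k % (m + 1 - s % m)) = s / m := by
    rw [hk]
    calc _ = (m - s % m).factorial * ((m + 1 - s % m) * (k / (m + 1 - s % m)) +
          k % (m + 1 - s % m)) := by ring
      _ = _ := by rw [Nat.div_add_mod]
  rw [h2]
  exact Nat.div_add_mod _ _

lemma br_le_eq {j : ℕ} (h : br m s ≤ m) (hj : br m s = j) : s % m + 1 = j := by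
  unfold br at h hj
  split_ifs at h hj
  · exact hj
  · omega

lemma sib_inj {r r' : ℕ} (h : sib m s r = sib m s r') : r = r' := by
  have h1 : sib m s r / m = sib m s r' / m := by rw [h]
  rw [sib_div hm, sib_div hm] at h1
  exact Nat.eq_of_mul_eq_mul_left (Nat.factorial_pos _) (Nat.add_left_cancel h1)

end sibling

/-! ### The poset -/

/-- The elements of the poset: level `h`, node `s`, index `i`. -/
@[ext] structure Pt (m : ℕ) : Type where
  h : ℕ
  s : ℕ
  i : ℕ
  hh : h < 2 * m + 1
  hs : s < NN m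
  hi : i < wid m h

/-- `y` is one level above `x` and related to it. -/
def stp (m : ℕ) (x y : Pt m) : Prop :=
  y.h = x.h + 1 ∧ ((x.h < m ∧ dn m (m - x.h) y.s y.i x.s x.i) ∨
    (m ≤ x.h ∧ y.s = rt m x.h x.s x.i))

lemma eq_or_lt_of_path {m : ℕ} {x y : Pt m} (h : Relation.ReflTransGen (stp m) x y) :
    x = y ∨ x.h < y.h := by
  induction h with
  | refl => left; rfl
  | tail _ h2 ih =>
    right
    have := h2.1
    rcases ih with rfl | ih <;> omega

noncomputable instance instPO (m : ℕ) : PartialOrder (Pt m) where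
  le := Relation.ReflTransGen (stp m)
  le_refl _ := Relation.ReflTransGen.refl
  le_trans _ _ _ := Relation.ReflTransGen.trans
  le_antisymm x y h1 h2 := by
    rcases eq_or_lt_of_path h1 with h | h
    · exact h
    · rcases eq_or_lt_of_path h2 with h' | h'
      · exact h'.symm
      · omega

noncomputable instance instFT (m : ℕ) : Fintype (Pt m) :=
  Fintype.ofInjective (fun x : Pt m => ((⟨x.h, x.hh⟩ : Fin (2 * m + 1)),
    (⟨x.s, x.hs⟩ : Fin (NN m)),
    (⟨x.i, by have := x.hi; unfold wid at this; have := x.hh; omega⟩ : Fin (m + 1))))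
    (by
      intro x y hxy
      simp only [Prod.mk.injEq, Fin.mk.injEq] at hxy
      exact Pt.ext hxy.1 hxy.2.1 hxy.2.2)

section poset

variable {m : ℕ}

lemma le_cases {x y : Pt m} (h : x ≤ y) : x = y ∨ x.h < y.h := eq_or_lt_of_path h

lemma h_le_of_le {x y : Pt m} (h : x ≤ y) : x.h ≤ y.h := by
  rcases le_cases h with rfl | h
  · exact le_rfl
  · exact h.le

lemma eq_of_le_of_h {x y : Pt m} (h : x ≤ y) (h2 : x.h = y.h) : x = y := by
  rcases le_cases h with h | h
  · exact h
  · omega

lemma h_lt_of_lt {x y : Pt m} (h : x < y) : x.h < y.h := by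
  rcases le_cases h.le with h' | h'
  · exact absurd h' h.ne
  · exact h'

lemma le_of_stp {x y : Pt m} (h : stp m x y) : x ≤ y := Relation.ReflTransGen.single h

lemma lt_of_stp {x y : Pt m} (h : stp m x y) : x < y := by
  refine lt_of_le_of_ne (le_of_stp h) ?_
  rintro rfl
  have := h.1
  omega

lemma exists_stp_of_lt {x y : Pt m} (h : x < y) : ∃ z, stp m x z ∧ z ≤ y := by
  rcases Relation.ReflTransGen.cases_head (r := stp m) h.le with h' | h'
  · exact absurd h' h.ne
  · exact h'

lemma lt_iff_stp {x y : Pt m} (h : y.h = x.h + 1) : x < y ↔ stp m x y := by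
  constructor
  · intro h1
    obtain ⟨z, hz, hzy⟩ := exists_stp_of_lt h1
    have : z = y := eq_of_le_of_h hzy (by rw [hz.1, h])
    exact this ▸ hz
  · exact lt_of_stp

lemma stp_of_covBy {x y : Pt m} (h : x ⋖ y) : stp m x y := by
  obtain ⟨z, hz, hzy⟩ := exists_stp_of_lt h.lt
  rcases hzy.eq_or_lt with rfl | h1
  · exact hz
  · exact absurd h1 (h.2 (lt_of_stp hz))

/-- An intermediate element at a prescribed level. -/
lemma exists_mid {x y : Pt m} (h : x ≤ y) {k : ℕ} (h1 : x.h ≤ k) (h2 : k ≤ y.h) :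
    ∃ a : Pt m, a.h = k ∧ x ≤ a ∧ a ≤ y := by
  have h' : Relation.ReflTransGen (stp m) x y := h
  induction h' with
  | refl => exact ⟨x, by omega, le_rfl, le_rfl⟩
  | @tail b c hb hc ih =>
    by_cases hk : k ≤ b.h
    · obtain ⟨a, ha, hxa, hab⟩ := ih hb hk
      exact ⟨a, ha, hxa, hab.trans (le_of_stp hc)⟩
    · exact ⟨c, by have := hc.1; omega, h, le_rfl⟩

lemma card_level {h : ℕ} (hh : h < 2 * m + 1) :
    (level (Pt.h (m := m)) h).card = NN m * wid m h := by
  have h1 : (univ : Finset (Fin (NN m) × Fin (wid m h))).card = NN m * wid m h := by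
    rw [card_univ, Fintype.card_prod, Fintype.card_fin, Fintype.card_fin]
  rw [← h1]
  symm
  refine card_bij (fun x _ => (⟨h, x.1, x.2, hh, x.1.2, x.2.2⟩ : Pt m)) ?_ ?_ ?_
  · intro x _
    simp [level]
  · intro x _ y _ hxy
    simp only [Pt.mk.injEq, true_and] at hxy
    exact Prod.ext (Fin.ext hxy.1) (Fin.ext hxy.2)
  · intro y hy
    simp only [level, mem_filter, mem_univ, true_and] at hy
    refine ⟨(⟨y.s, y.hs⟩, ⟨y.i, by have := y.hi; rwa [hy] at this⟩), mem_univ _, ?_⟩
    exact Pt.ext hy.symm rfl rfl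

lemma card_node {h ρ : ℕ} (hh : h < 2 * m + 1) (hρ : ρ < NN m) :
    ((level (Pt.h (m := m)) h).filter fun x => x.s = ρ).card = wid m h := by
  have h1 : (univ : Finset (Fin (wid m h))).card = wid m h := by
    rw [card_univ, Fintype.card_fin]
  conv_rhs => rw [← h1]
  symm
  refine card_bij (fun x _ => (⟨h, ρ, x, hh, hρ, x.2⟩ : Pt m)) ?_ ?_ ?_
  · intro x _
    simp [level]
  · intro x _ y _ hxy
    simp only [Pt.mk.injEq, true_and] at hxy
    exact Fin.ext hxy
  · intro y hy
    simp only [level, mem_filter, mem_univ, true_and] at hy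
    refine ⟨⟨y.i, by have := y.hi; rwa [hy.1] at this⟩, mem_univ _, ?_⟩
    exact Pt.ext hy.1.symm hy.2.symm rfl

/-! #### The shift and the symmetric chains -/

/-- Distance to the middle level. -/
def dst (m h : ℕ) : ℕ := (m - h) + (h - m)

lemma br_cases (s j : ℕ) : j < br m s ∨ br m s = j ∨ br m s < j := by omega

lemma br_eq_of_le {s : ℕ} (h : br m s ≤ m) : br m s = s % m + 1 := by
  unfold br at h ⊢
  split_ifs at h ⊢ with h1
  · rfl
  · omega

lemma stp_shift (hm : 1 ≤ m) {x y : Pt m} (h1 : y.h = x.h + 1) (h2 : y.s = x.s)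
    (h3 : x.i + dst m x.h = y.i + dst m y.h) : stp m x y := by
  refine ⟨h1, ?_⟩
  have hy := y.hi
  have hx := x.hi
  by_cases hx1 : x.h < m
  · left
    refine ⟨hx1, ?_⟩
    have h4 : y.i ≠ 0 := by
      unfold dst at h3
      omega
    rw [h2]
    rcases br_cases (m := m) x.s (m - x.h) with h | h | h
    · exact Or.inl ⟨h, rfl, fun h5 => absurd h5 h4⟩
    · refine Or.inr (Or.inl ⟨h, ?_, fun h5 => absurd h5 h4⟩)
      have h6 : br m x.s = x.s % m + 1 := br_eq_of_le (by omega)
      refine ⟨idx m x.s, ?_, (sib_idx hm h6).symm⟩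
      have := idx_lt hm (s := x.s)
      omega
    · exact Or.inr (Or.inr ⟨h, rfl⟩)
  · right
    refine ⟨by omega, ?_⟩
    unfold rt
    rw [if_neg, h2]
    rintro ⟨h4, h5⟩
    unfold dst at h3
    omega

lemma le_of_color (hm : 1 ≤ m) (d : ℕ) : ∀ x y : Pt m, y.h = x.h + d → x.s = y.s →
    x.i + dst m x.h = y.i + dst m y.h → x ≤ y := by
  induction d with
  | zero =>
    intro x y h1 h2 h3
    rw [Nat.add_zero] at h1
    rw [h1] at h3
    exact le_of_eq (Pt.ext h1.symm h2 (by omega))
  | succ d ih =>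
    intro x y h1 h2 h3
    have hx := x.hi
    have hy := y.hi
    have hyh := y.hh
    let z : Pt m := ⟨x.h + 1, x.s, x.i + dst m x.h - dst m (x.h + 1), by omega, x.hs, by
      unfold dst wid at *
      omega⟩
    have hz : stp m x z := by
      refine stp_shift hm rfl rfl ?_
      show x.i + dst m x.h = x.i + dst m x.h - dst m (x.h + 1) + dst m (x.h + 1)
      unfold dst wid at *
      omega
    refine (le_of_stp hz).trans (ih z y ?_ h2 ?_)
    · show y.h = x.h + 1 + d
      omega
    · show x.i + dst m x.h - dst m (x.h + 1) + dst m (x.h + 1) = _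
      unfold dst wid at *
      omega

lemma comparable_of_color (hm : 1 ≤ m) {x y : Pt m} (h2 : x.s = y.s)
    (h3 : x.i + dst m x.h = y.i + dst m y.h) : x ≤ y ∨ y ≤ x := by
  rcases le_total x.h y.h with h | h
  · exact Or.inl (le_of_color hm (y.h - x.h) x y (by omega) h2 h3)
  · exact Or.inr (le_of_color hm (x.h - y.h) y x (by omega) h2.symm h3.symm)

lemma color_lt (x : Pt m) : x.i + dst m x.h < m + 1 := by
  have := x.hi
  have := x.hh
  unfold dst wid at *
  omega

lemma antichain_card_le (hm : 1 ≤ m) {s : Finset (Pt m)}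
    (hs : IsAntichain (· ≤ ·) (s : Set (Pt m))) : s.card ≤ NN m * (m + 1) := by
  have h1 : (range (NN m) ×ˢ range (m + 1)).card = NN m * (m + 1) := by
    rw [card_product, card_range, card_range]
  rw [← h1]
  refine card_le_card_of_injOn (fun x => (x.s, x.i + dst m x.h)) ?_ ?_
  · intro x _
    simp only [coe_product, coe_range, Set.mem_prod, Set.mem_Iio]
    exact ⟨x.hs, color_lt x⟩
  · intro x hx y hy hxy
    simp only [Prod.mk.injEq] at hxy
    by_contra hne
    rcases comparable_of_color hm hxy.1 hxy.2 with h | h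
    · exact hs hx hy hne h
    · exact hs hy hx (Ne.symm hne) h

lemma wid_mid : wid m m = m + 1 := wid_low le_rfl

lemma width_eq (hm : 1 ≤ m) : width (Pt m) = NN m * (m + 1) := by
  apply le_antisymm
  · apply csSup_le'
    rintro k ⟨s, hs, rfl⟩
    exact antichain_card_le hm hs
  · apply le_csSup
    · refine ⟨NN m * (m + 1), ?_⟩
      rintro k ⟨s, hs, rfl⟩
      exact antichain_card_le hm hs
    · refine ⟨level (Pt.h (m := m)) m, ?_, ?_⟩
      · intro x hx y hy hne hle
        have hx' : x.h = m := (mem_filter.mp (mem_coe.mp hx)).2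
        have hy' : y.h = m := (mem_filter.mp (mem_coe.mp hy)).2
        exact hne (eq_of_le_of_h hle (by rw [hx', hy']))
      · rw [card_level (by omega), wid_mid]

lemma card_Pt : Fintype.card (Pt m) = NN m * ((m + 1) * (m + 1)) := by
  have h1 : (univ : Finset (Pt m)).card =
      ∑ h ∈ range (2 * m + 1), (univ.filter fun x : Pt m => x.h = h).card :=
    card_eq_sum_card_fiberwise (fun x _ => by
      simp only [coe_range, Set.mem_Iio]
      exact x.hh)
  rw [← card_univ, h1]
  have h2 : ∀ h ∈ range (2 * m + 1), (univ.filter fun x : Pt m => x.h = h).card =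
      NN m * wid m h := fun h hh => card_level (mem_range.mp hh)
  rw [sum_congr rfl h2, ← mul_sum]
  congr 1
  have h3 : 2 * m + 1 = (m + 1) + m := by ring
  rw [h3, sum_range_add, sum_range_succ]
  have h4 : ∑ x ∈ range m, wid m x + ∑ x ∈ range m, wid m (m + 1 + x) = m * (m + 1) := by
    rw [← sum_add_distrib]
    have : ∀ x ∈ range m, wid m x + wid m (m + 1 + x) = m + 1 := by
      intro x hx
      have := mem_range.mp hx
      rw [wid_low (by omega), wid_up (by omega)]
      omega
    rw [sum_congr rfl this, sum_const, card_range, smul_eq_mul]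
  rw [wid_mid]
  calc _ = (∑ x ∈ range m, wid m x + ∑ x ∈ range m, wid m (m + 1 + x)) + (m + 1) := by ring
    _ = _ := by rw [h4]; ring

/-! #### Invariants along chains -/

/-- What lies below a middle element `a`. -/
lemma below (hm : 1 ≤ m) {x a : Pt m} (h : x ≤ a) (ha : a.h = m) :
    (m - x.h < br m a.s → x.s = a.s ∧ (a.i = 0 → x.i = 0)) ∧
    (br m a.s ≤ m - x.h → br m x.s = br m a.s) ∧
    (br m a.s = m - x.h → a.i = 0 → x.s = sib m a.s 0) := by
  have h' : Relation.ReflTransGen (stp m) x a := h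
  have hbr : 1 ≤ br m a.s := by
    unfold br
    split_ifs <;> omega
  induction h' using Relation.ReflTransGen.head_induction_on with
  | refl =>
    rw [ha, Nat.sub_self]
    exact ⟨fun _ => ⟨rfl, id⟩, fun h => by omega, fun h => by omega⟩
  | @head b c hbc hca ih =>
    have hca' : c ≤ a := hca
    obtain ⟨ih1, ih2, ih3⟩ := ih hca'
    have h1 := hbc.1
    have h2 := h_le_of_le hca'
    have hb : b.h < m := by omega
    have h3 : dn m (m - b.h) c.s c.i b.s b.i := by
      rcases hbc.2 with h | h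
      · exact h.2
      · omega
    have h4 : m - b.h = (m - c.h) + 1 := by omega
    rw [h4] at h3 ⊢
    rcases lt_trichotomy (m - c.h + 1) (br m a.s) with h5 | h5 | h5
    · -- not yet broken
      obtain ⟨i1, i2⟩ := ih1 (by omega)
      refine ⟨fun _ => ?_, fun h => by omega, fun h => by omega⟩
      rcases h3 with h | h | h
      · exact ⟨h.2.1.trans i1, fun h6 => h.2.2 (i2 h6)⟩
      · rw [i1] at h; omega
      · rw [i1] at h; omega
    · -- breaks now
      obtain ⟨i1, i2⟩ := ih1 (by omega)
      refine ⟨fun h => by omega, fun _ => ?_, fun _ h7 => ?_⟩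
      · rcases h3 with h | h | h
        · rw [i1] at h; omega
        · obtain ⟨_, ⟨r, hr, h6⟩, _⟩ := h
          rw [h6, i1, br_sib hm]
          rw [i1] at h6
          exact (br_eq_of_le (by omega)).symm
        · rw [i1] at h; omega
      · rcases h3 with h | h | h
        · rw [i1] at h; omega
        · rw [h.2.2 (i2 h7), i1]
        · rw [i1] at h; omega
    · -- already broken
      have i1 := ih2 (by omega)
      refine ⟨fun h => by omega, fun _ => ?_, fun h => by omega⟩
      rcases h3 with h | h | h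
      · rw [i1] at h; omega
      · rw [i1] at h; omega
      · rw [h.2, i1]

/-- What lies above a middle element `a`. -/
lemma above {a y : Pt m} (h : a ≤ y) (ha : a.h = m) (hy : m < y.h) :
    y.s = rt m m a.s a.i := by
  have h' : Relation.ReflTransGen (stp m) a y := h
  induction h' with
  | refl => omega
  | @tail b c hb hc ih =>
    have h1 := hc.1
    have h2 : a.h ≤ b.h := h_le_of_le hb
    rcases hc.2 with h3 | h3
    · omega
    · rw [h3.2]
      rcases Nat.lt_or_ge m b.h with h4 | h4
      · rw [← ih hb h4]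
        unfold rt
        rw [if_neg (by omega)]
      · have h5 : a = b := eq_of_le_of_h hb (by omega)
        rw [h5, show b.h = m by omega]

/-! #### Normalized matching -/

/-- A normalized matching inequality from an injection. -/
lemma nm_of_inj {α β : Type} (A X : Finset α) (B : Finset β) (c c' : ℕ) (rel : α → β → Prop)
    [DecidableRel rel] [DecidablePred fun y => ∃ x ∈ X, rel x y]
    (F : α → ℕ → β) (G : α → ℕ → ℕ) (hX : X ⊆ A)
    (hB : ∀ x ∈ A, ∀ a < c', F x a ∈ B) (hrel : ∀ x ∈ A, ∀ a < c', rel x (F x a))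
    (hG : ∀ x ∈ A, ∀ a < c', G x a < c)
    (hinj : ∀ x ∈ A, ∀ a < c', ∀ x' ∈ A, ∀ a' < c', F x a = F x' a' → G x a = G x' a' →
      x = x' ∧ a = a') :
    X.card * c' ≤ (B.filter fun y => ∃ x ∈ X, rel x y).card * c := by
  have h1 : X.card * c' = (X ×ˢ range c').card := by rw [card_product, card_range]
  have h2 : (B.filter fun y => ∃ x ∈ X, rel x y).card * c =
      ((B.filter fun y => ∃ x ∈ X, rel x y) ×ˢ range c).card := by
    rw [card_product, card_range]
  rw [h1, h2]
  refine card_le_card_of_injOn (fun p => (F p.1 p.2, G p.1 p.2)) ?_ ?_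
  · rintro ⟨x, a⟩ hp
    obtain ⟨h3, h4⟩ := mem_product.mp (mem_coe.mp hp)
    have h4' := mem_range.mp h4
    refine mem_coe.mpr (mem_product.mpr ⟨mem_filter.mpr ⟨hB x (hX h3) a h4', x, h3,
      hrel x (hX h3) a h4'⟩, mem_range.mpr (hG x (hX h3) a h4')⟩)
  · rintro ⟨x, a⟩ hp ⟨x', a'⟩ hp' heq
    obtain ⟨h3, h4⟩ := mem_product.mp (mem_coe.mp hp)
    obtain ⟨h3', h4'⟩ := mem_product.mp (mem_coe.mp hp')
    simp only [Prod.mk.injEq] at heq
    obtain ⟨h5, h6⟩ := hinj x (hX h3) a (mem_range.mp h4) x' (hX h3') a' (mem_range.mp h4')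
      heq.1 heq.2
    rw [h5, h6]

/-- The complement form of a normalized matching inequality. -/
lemma nm_compl {α β : Type} [DecidableEq α] [DecidableEq β] (A : Finset α) (B : Finset β)
    (c c' : ℕ) (rel : α → β → Prop) [DecidableRel rel] (hcard : A.card * c' = B.card * c)
    (h : ∀ X ⊆ A, X.card * c' ≤ (B.filter fun y => ∃ x ∈ X, rel x y).card * c)
    (Y : Finset β) (hY : Y ⊆ B) :
    Y.card * c ≤ (A.filter fun x => ∃ y ∈ Y, rel x y).card * c' := by
  set N := A.filter fun x => ∃ y ∈ Y, rel x y with hN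
  have hNA : N ⊆ A := filter_subset _ _
  have h1 := h (A \ N) sdiff_subset
  have h2 : (B.filter fun y => ∃ x ∈ A \ N, rel x y) ⊆ B \ Y := by
    intro y hy
    obtain ⟨hyB, x, hx, hxy⟩ := mem_filter.mp hy
    refine mem_sdiff.mpr ⟨hyB, fun hyY => ?_⟩
    exact (mem_sdiff.mp hx).2 (mem_filter.mpr ⟨(mem_sdiff.mp hx).1, y, hyY, hxy⟩)
  have h3 := card_le_card h2
  have h4 : (A \ N).card + N.card = A.card := card_sdiff_add_card_eq_card hNA
  have h5 : (B \ Y).card + Y.card = B.card := card_sdiff_add_card_eq_card hY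
  have h6 : (A \ N).card * c' ≤ (B \ Y).card * c := h1.trans (Nat.mul_le_mul_right _ h3)
  have h7 : (A \ N).card * c' + N.card * c' = A.card * c' := by rw [← h4]; ring
  have h8 : (B \ Y).card * c + Y.card * c = B.card * c := by rw [← h5]; ring
  omega

/-- The flow on the lower side: the node. -/
def flowS (m j s i : ℕ) : ℕ := if br m s = j then sib m s i else s

/-- The flow on the lower side: the index. -/
def flowI (m j s i a : ℕ) : ℕ :=
  if j < br m s then (if i = 0 then 0 else if a = 0 then i - 1 else a) else a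

/-- The flow on the lower side: the slot. -/
def flowG (m j s i a : ℕ) : ℕ :=
  if j < br m s then (if i = 0 then a else if a = 0 then m + 1 - j else i - 1)
  else if br m s = j then idx m s else i

lemma br_flowS (hm : 1 ≤ m) {j s i : ℕ} (hj : j ≤ m) : br m (flowS m j s i) = br m s := by
  unfold flowS
  split_ifs with h
  · rw [br_sib hm, br_eq_of_le (h.trans_le hj)]
  · rfl

lemma flow_inj (hm : 1 ≤ m) {h s i a s' i' a' : ℕ} (hh : h < m) (hi : i < h + 2)
    (hi' : i' < h + 2) (ha : a < h + 1) (ha' : a' < h + 1)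
    (e1 : flowS m (m - h) s i = flowS m (m - h) s' i')
    (e2 : flowI m (m - h) s i a = flowI m (m - h) s' i' a')
    (e3 : flowG m (m - h) s i a = flowG m (m - h) s' i' a') : s = s' ∧ i = i' ∧ a = a' := by
  have hbr : br m s = br m s' := by
    rw [← br_flowS hm (j := m - h) (s := s) (i := i) (by omega), e1,
      br_flowS hm (by omega)]
  rcases br_cases (m := m) s (m - h) with h1 | h1 | h1
  · have h2 : m - h < br m s' := by omega
    unfold flowS at e1
    rw [if_neg (by omega), if_neg (by omega)] at e1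
    subst e1
    unfold flowI at e2
    unfold flowG at e3
    rw [if_pos h1, if_pos h1] at e2 e3
    refine ⟨rfl, ?_⟩
    split_ifs at e2 e3 <;> omega
  · have h2 : br m s' = m - h := by omega
    unfold flowS at e1
    unfold flowI at e2
    unfold flowG at e3
    rw [if_pos h1, if_pos h2] at e1
    rw [if_neg (by omega), if_neg (by omega)] at e2
    rw [if_neg (show ¬ m - h < br m s by omega), if_pos h1,
      if_neg (show ¬ m - h < br m s' by omega), if_pos h2] at e3
    have b1 : br m s = s % m + 1 := br_eq_of_le (by omega)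
    have b2 : br m s' = s' % m + 1 := br_eq_of_le (by omega)
    have h3 : s = s' := by
      rw [← sib_idx hm b1, ← sib_idx hm b2, ← sib_sib hm (r := i) (s := s) (by omega),
        ← sib_sib hm (r := i') (s := s') (by omega), e1, e3]
    subst h3
    exact ⟨rfl, sib_inj hm e1, e2⟩
  · have h2 : br m s' < m - h := by omega
    unfold flowS at e1
    unfold flowI at e2
    unfold flowG at e3
    rw [if_neg (by omega), if_neg (by omega)] at e1
    rw [if_neg (by omega), if_neg (by omega)] at e2
    rw [if_neg (by omega), if_neg (by omega), if_neg (by omega), if_neg (by omega)] at e3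
    exact ⟨e1, e3, e2⟩

lemma flow_mem (hm : 1 ≤ m) {h s i a : ℕ} (hh : h < m) (hs : s < NN m) (hi : i < h + 2)
    (ha : a < h + 1) : flowS m (m - h) s i < NN m ∧ flowI m (m - h) s i a < h + 1 ∧
      flowG m (m - h) s i a < h + 2 ∧
      dn m (m - h) s i (flowS m (m - h) s i) (flowI m (m - h) s i a) := by
  rcases br_cases (m := m) s (m - h) with h1 | h1 | h1
  · unfold flowS flowI flowG
    rw [if_neg (by omega), if_pos h1, if_pos h1]
    refine ⟨hs, by split_ifs <;> omega, by split_ifs <;> omega, Or.inl ⟨h1, rfl, ?_⟩⟩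
    intro h2
    rw [if_pos h2]
  · have b1 : br m s = s % m + 1 := br_eq_of_le (by omega)
    unfold flowS flowI flowG
    rw [if_pos h1, if_neg (by omega), if_neg (by omega), if_pos h1]
    refine ⟨sib_lt hm hs (by omega), ha, ?_, Or.inr (Or.inl ⟨h1, ⟨i, by omega, rfl⟩, ?_⟩)⟩
    · have := idx_lt hm (s := s)
      omega
    · intro h2
      rw [h2]
  · unfold flowS flowI flowG
    rw [if_neg (by omega), if_neg (by omega), if_neg (by omega), if_neg (by omega)]
    exact ⟨hs, ha, hi, Or.inr (Or.inr ⟨h1, rfl⟩)⟩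

open Classical in
lemma lower_nm' (hm : 1 ≤ m) {h : ℕ} (hh : h < m) (X : Finset (Pt m))
    (hX : X ⊆ level (Pt.h (m := m)) (h + 1)) :
    X.card * (h + 1) ≤
      ((level (Pt.h (m := m)) h).filter fun y => ∃ x ∈ X, stp m y x).card * (h + 2) := by
  have hw : wid m h = h + 1 := wid_low (by omega)
  have hw' : wid m (h + 1) = h + 2 := wid_low (by omega)
  have hfm : ∀ x ∈ level (Pt.h (m := m)) (h + 1), ∀ a < h + 1,
      flowS m (m - h) x.s x.i < NN m ∧ flowI m (m - h) x.s x.i a < h + 1 ∧
      flowG m (m - h) x.s x.i a < h + 2 ∧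
      dn m (m - h) x.s x.i (flowS m (m - h) x.s x.i) (flowI m (m - h) x.s x.i a) := by
    intro x hx a ha
    have hxh : x.h = h + 1 := (mem_filter.mp hx).2
    refine flow_mem hm hh x.hs ?_ ha
    have := x.hi
    rwa [hxh, hw'] at this
  let F : Pt m → ℕ → Pt m := fun x a =>
    if hc : flowS m (m - h) x.s x.i < NN m ∧ flowI m (m - h) x.s x.i a < h + 1 then
      ⟨h, flowS m (m - h) x.s x.i, flowI m (m - h) x.s x.i a, by omega, hc.1, by
        rw [hw]; exact hc.2⟩
    else x
  have hF : ∀ x ∈ level (Pt.h (m := m)) (h + 1), ∀ a < h + 1,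
      (F x a).h = h ∧ (F x a).s = flowS m (m - h) x.s x.i ∧
      (F x a).i = flowI m (m - h) x.s x.i a := by
    intro x hx a ha
    obtain ⟨k1, k2, _, _⟩ := hfm x hx a ha
    have : F x a = ⟨h, flowS m (m - h) x.s x.i, flowI m (m - h) x.s x.i a, by omega, k1, by
        rw [hw]; exact k2⟩ := dif_pos ⟨k1, k2⟩
    rw [this]
    exact ⟨rfl, rfl, rfl⟩
  refine nm_of_inj (level (Pt.h (m := m)) (h + 1)) X (level (Pt.h (m := m)) h) (h + 2) (h + 1)
    (fun x y => stp m y x) F (fun x a => flowG m (m - h) x.s x.i a) hX ?_ ?_ ?_ ?_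
  · intro x hx a ha
    exact mem_filter.mpr ⟨mem_univ _, (hF x hx a ha).1⟩
  · intro x hx a ha
    obtain ⟨k1, k2, k3⟩ := hF x hx a ha
    have hxh : x.h = h + 1 := (mem_filter.mp hx).2
    refine ⟨by rw [k1, hxh], Or.inl ⟨by omega, ?_⟩⟩
    rw [k1, k2, k3]
    exact (hfm x hx a ha).2.2.2
  · intro x hx a ha
    exact (hfm x hx a ha).2.2.1
  · intro x hx a ha x' hx' a' ha' e1 e2
    obtain ⟨k1, k2, k3⟩ := hF x hx a ha
    obtain ⟨k1', k2', k3'⟩ := hF x' hx' a' ha'
    have hxh : x.h = h + 1 := (mem_filter.mp hx).2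
    have hxh' : x'.h = h + 1 := (mem_filter.mp hx').2
    have hxi : x.i < h + 2 := by have := x.hi; rwa [hxh, hw'] at this
    have hxi' : x'.i < h + 2 := by have := x'.hi; rwa [hxh', hw'] at this
    rw [e1] at k2 k3
    obtain ⟨q1, q2, q3⟩ := flow_inj hm hh hxi hxi' ha ha' (k2.symm.trans k2') (k3.symm.trans k3')
      e2
    exact ⟨Pt.ext (by rw [hxh, hxh']) q1 q2, q3⟩

open Classical in
lemma lower_nm (hm : 1 ≤ m) {h : ℕ} (hh : h < m) (Y : Finset (Pt m))
    (hY : Y ⊆ level (Pt.h (m := m)) h) :
    Y.card * (h + 2) ≤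
      ((level (Pt.h (m := m)) (h + 1)).filter fun x => ∃ y ∈ Y, stp m y x).card * (h + 1) := by
  refine nm_compl (level (Pt.h (m := m)) (h + 1)) (level (Pt.h (m := m)) h) (h + 2) (h + 1)
    (fun x y => stp m y x) ?_ (fun X hX => lower_nm' hm hh X hX) Y hY
  rw [card_level (by omega), card_level (by omega), wid_low (by omega), wid_low (by omega)]
  ring

lemma rt_inj {h s i s' i' : ℕ} (hs : s < NN m) (hs' : s' < NN m) (hi : i = i')
    (h1 : rt m h s i = rt m h s' i') : s = s' := by
  unfold rt at h1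
  subst hi
  split_ifs at h1 with h2
  · rcases Nat.lt_or_ge (s + 1) (NN m) with k | k <;> rcases Nat.lt_or_ge (s' + 1) (NN m) with k' | k'
    · rw [Nat.mod_eq_of_lt k, Nat.mod_eq_of_lt k'] at h1; omega
    · rw [Nat.mod_eq_of_lt k, show s' + 1 = NN m by omega, Nat.mod_self] at h1; omega
    · rw [Nat.mod_eq_of_lt k', show s + 1 = NN m by omega, Nat.mod_self] at h1; omega
    · omega
  · exact h1

lemma rt_lt {h s i : ℕ} (hs : s < NN m) : rt m h s i < NN m := by
  unfold rt
  split_ifs
  · exact Nat.mod_lt _ (by omega)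
  · exact hs

open Classical in
lemma upper_nm {h : ℕ} (hh : m ≤ h) (hh2 : h < 2 * m) (X : Finset (Pt m))
    (hX : X ⊆ level (Pt.h (m := m)) h) :
    X.card * (2 * m - h) ≤
      ((level (Pt.h (m := m)) (h + 1)).filter fun y => ∃ x ∈ X, stp m x y).card *
        (2 * m + 1 - h) := by
  have hw : wid m h = 2 * m + 1 - h := wid_up hh
  have hw' : wid m (h + 1) = 2 * m - h := by rw [wid_up (by omega)]; omega
  let F : Pt m → ℕ → Pt m := fun x a =>
    if hc : a < 2 * m - h then
      ⟨h + 1, rt m h x.s x.i, a, by omega, rt_lt x.hs, by rw [hw']; exact hc⟩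
    else x
  have hF : ∀ x, ∀ a < 2 * m - h,
      (F x a).h = h + 1 ∧ (F x a).s = rt m h x.s x.i ∧ (F x a).i = a := by
    intro x a ha
    have : F x a = ⟨h + 1, rt m h x.s x.i, a, by omega, rt_lt x.hs, by rw [hw']; exact ha⟩ :=
      dif_pos ha
    rw [this]
    exact ⟨rfl, rfl, rfl⟩
  refine nm_of_inj (level (Pt.h (m := m)) h) X (level (Pt.h (m := m)) (h + 1)) (2 * m + 1 - h)
    (2 * m - h) (fun x y => stp m x y) F (fun x _ => x.i) hX ?_ ?_ ?_ ?_
  · intro x hx a ha
    exact mem_filter.mpr ⟨mem_univ _, (hF x a ha).1⟩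
  · intro x hx a ha
    obtain ⟨k1, k2, k3⟩ := hF x a ha
    have hxh : x.h = h := (mem_filter.mp hx).2
    exact ⟨by rw [k1, hxh], Or.inr ⟨by omega, by rw [k2, hxh]⟩⟩
  · intro x hx a ha
    have hxh : x.h = h := (mem_filter.mp hx).2
    have := x.hi
    rwa [hxh, hw] at this
  · intro x hx a ha x' hx' a' ha' e1 e2
    obtain ⟨k1, k2, k3⟩ := hF x a ha
    obtain ⟨k1', k2', k3'⟩ := hF x' a' ha'
    have hxh : x.h = h := (mem_filter.mp hx).2
    have hxh' : x'.h = h := (mem_filter.mp hx').2
    rw [e1] at k2 k3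
    exact ⟨Pt.ext (by rw [hxh, hxh']) (rt_inj x.hs x'.hs e2 (k2.symm.trans k2')) e2,
      k3.symm.trans k3'⟩

lemma sib_base (hm : 1 ≤ m) {t b r : ℕ} (hb : b < m) (ht : (m + 1 - b).factorial ∣ t) :
    sib m (m * t + b) r = m * (t + (m - b).factorial * r) + b := by
  unfold sib
  rw [Nat.mul_add_mod, Nat.mod_eq_of_lt hb, Nat.mul_add_div (by omega), Nat.div_eq_of_lt hb]
  simp only [Nat.add_zero]
  rw [Nat.mul_div_cancel' ht]

lemma node_lt {s t : ℕ} (h : s < m * t) (ht : t ≤ (m + 1).factorial) :
    s < NN m := lt_of_lt_of_le h (Nat.mul_le_mul_left _ ht)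

/-- Inside a segment there is no break. -/
lemma br_inside (hm : 1 ≤ m) {t b s : ℕ} (hb : b < m) (ht : (m - b).factorial ∣ t)
    (h1 : m * t + b < s) (h2 : s < m * (t + (m - b).factorial)) : b + 1 < br m s := by
  unfold br
  split_ifs with h
  · by_contra hcon
    have h3 : s % m ≤ b := by omega
    have h4 : (m - b).factorial ∣ s / m :=
      (Nat.factorial_dvd_factorial (by omega)).trans h
    have h5 : m * (s / m) + s % m = s := Nat.div_add_mod s m
    have h6 : t ≤ s / m := by
      rw [Nat.le_div_iff_mul_le hm, Nat.mul_comm]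
      omega
    have h7 : s / m < t + (m - b).factorial := by
      rw [Nat.div_lt_iff_lt_mul hm, Nat.mul_comm]
      exact h2
    have h8 : (m - b).factorial ∣ s / m - t := Nat.dvd_sub h4 ht
    have h9 : s / m - t = 0 := Nat.eq_zero_of_dvd_of_lt h8 (by omega)
    have h10 : s / m = t := by omega
    rw [h10] at h5
    omega
  · omega

/-- The main point: some rank-symmetric chain in a partition is a singleton. -/
theorem no_partition (hm : 1 ≤ m) : ¬ HasPartition (2 * m) (Pt.h (m := m)) 2 := by
  rintro ⟨𝒞, h𝒞, hex⟩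
  have hex' : ∀ x : Pt m, ∃ C, C ∈ 𝒞 ∧ x ∈ C ∧ ∀ C', C' ∈ 𝒞 → x ∈ C' → C' = C := by
    intro x
    obtain ⟨C, hC, hC'⟩ := hex x
    exact ⟨C, hC.1, hC.2, fun C' h1 h2 => hC' C' ⟨h1, h2⟩⟩
  choose pt hpt hmem huniq using hex'
  have hchain : ∀ C ∈ 𝒞, ∀ x ∈ C, ∀ y ∈ C, x.h ≤ y.h → x ≤ y := by
    intro C hC x hx y hy hxy
    rcases (h𝒞 C hC).2.1.1.total (mem_coe.mpr hx) (mem_coe.mpr hy) with h | h
    · exact h
    · exact le_of_eq (eq_of_le_of_h h (le_antisymm (h_le_of_le h) hxy)).symm
  have heq : ∀ C ∈ 𝒞, ∀ x ∈ C, ∀ y ∈ C, x.h = y.h → x = y := by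
    intro C hC x hx y hy hxy
    exact eq_of_le_of_h (hchain C hC x hx y hy hxy.le) hxy
  have hsym : ∀ x : Pt m, ∃ y ∈ pt x, y.h = 2 * m - x.h := by
    intro x
    have h1 := (h𝒞 _ (hpt x)).2.1.2 x.h (by have := x.hh; omega)
    have h2 : 0 < ((pt x).filter fun y => y.h = x.h).card :=
      card_pos.mpr ⟨x, mem_filter.mpr ⟨hmem x, rfl⟩⟩
    rw [h1] at h2
    obtain ⟨y, hy⟩ := card_pos.mp h2
    exact ⟨y, (mem_filter.mp hy).1, (mem_filter.mp hy).2⟩
  choose u hu hu' using hsym
  have hptu : ∀ x, pt (u x) = pt x := fun x => (huniq (u x) (pt x) (hpt x) (hu x)).symm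
  have huu : ∀ x, u (u x) = x := by
    intro x
    refine heq (pt x) (hpt x) _ ?_ _ (hmem x) ?_
    · have := hu (u x)
      rwa [hptu] at this
    · rw [hu', hu']
      have := x.hh
      omega
  have hmid : ∀ l : Pt m, ∃ a : Pt m, l.h ≤ m → (a.h = m ∧ l ≤ a ∧ a ≤ u l ∧
      ∀ x ∈ pt l, x.h = m → a = x) := by
    intro l
    by_cases hl : l.h ≤ m
    · by_cases hx : ∃ x ∈ pt l, x.h = m
      · obtain ⟨x, hx1, hx2⟩ := hx
        refine ⟨x, fun _ => ⟨hx2, ?_, ?_, ?_⟩⟩
        · exact hchain _ (hpt l) _ (hmem l) _ hx1 (by omega)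
        · exact hchain _ (hpt l) _ hx1 _ (hu l) (by rw [hu', hx2]; omega)
        · intro y hy hy2
          exact heq _ (hpt l) _ hx1 _ hy (by omega)
      · have h1 : l ≤ u l := hchain _ (hpt l) _ (hmem l) _ (hu l) (by rw [hu']; omega)
        obtain ⟨a, ha1, ha2, ha3⟩ := exists_mid h1 hl (by rw [hu']; omega)
        exact ⟨a, fun _ => ⟨ha1, ha2, ha3, fun y hy hy2 => absurd ⟨y, hy, hy2⟩ hx⟩⟩
    · exact ⟨l, fun h => absurd h hl⟩
  choose a ha using hmid
  -- propagation along a strand
  have hprop : ∀ b s : ℕ, 1 ≤ b → b ≤ m → s + 1 < NN m → b < br m (s + 1) →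
      (∀ l : Pt m, l.h = m - b → ¬ ((a l).s = s ∧ (a l).i = 0)) →
      ∀ l : Pt m, l.h = m - b → ¬ ((a l).s = s + 1 ∧ (a l).i = 0) := by
    intro b s hb1 hbm hs hbr hfree l0 hl0 hcon
    have c0 : ((level (Pt.h (m := m)) (m + b)).filter fun y => y.s = s + 1).card =
        wid m (m + b) := card_node (by omega) hs
    have c1 : ((level (Pt.h (m := m)) (m + b)).filter fun y => y.s = s + 1).card ≤
        ((level (Pt.h (m := m)) (m - b)).filter fun l => (a l).s = s + 1 ∧ (a l).i ≠ 0).card := by
      refine card_le_card_of_injOn u ?_ ?_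
      · intro y hy
        have hy' := mem_filter.mp (mem_coe.mp hy)
        have hyh : y.h = m + b := (mem_filter.mp hy'.1).2
        have huh : (u y).h = m - b := by rw [hu', hyh]; omega
        obtain ⟨k1, k2, k3, k4⟩ := ha (u y) (by omega)
        rw [huu] at k3
        have k5 := above k3 k1 (by omega)
        rw [hy'.2] at k5
        refine mem_coe.mpr (mem_filter.mpr ⟨mem_filter.mpr ⟨mem_univ _, huh⟩, ?_⟩)
        have k6 := (a (u y)).hs
        unfold rt at k5
        split_ifs at k5 with h
        · exfalso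
          rcases Nat.lt_or_ge ((a (u y)).s + 1) (NN m) with k7 | k7
          · rw [Nat.mod_eq_of_lt k7] at k5
            exact hfree (u y) huh ⟨by omega, h.2⟩
          · have : (a (u y)).s + 1 = NN m := by omega
            rw [this, Nat.mod_self] at k5
            omega
        · exact ⟨k5.symm, fun h0 => h ⟨rfl, h0⟩⟩
      · intro y _ y' _ hyy
        have := congrArg u hyy
        rwa [huu, huu] at this
    have c2 : ((level (Pt.h (m := m)) (m - b)).filter
        fun l => (a l).s = s + 1 ∧ (a l).i ≠ 0).card <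
        ((level (Pt.h (m := m)) (m - b)).filter fun l => l.s = s + 1).card := by
      apply card_lt_card
      rw [ssubset_iff_of_subset]
      · refine ⟨l0, ?_, ?_⟩
        · refine mem_filter.mpr ⟨mem_filter.mpr ⟨mem_univ _, hl0⟩, ?_⟩
          obtain ⟨k1, k2, k3, k4⟩ := ha l0 (by omega)
          have k5 := (below hm k2 k1).1
          rw [hcon.1] at k5
          exact (k5 (by omega)).1
        · intro h
          exact (mem_filter.mp h).2.2 hcon.2
      · intro l hl
        have hl' := mem_filter.mp hl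
        have hlh : l.h = m - b := (mem_filter.mp hl'.1).2
        refine mem_filter.mpr ⟨hl'.1, ?_⟩
        obtain ⟨k1, k2, k3, k4⟩ := ha l (by omega)
        have k5 := (below hm k2 k1).1
        rw [hl'.2.1] at k5
        exact (k5 (by omega)).1
    rw [card_node (by omega) hs, wid_low (by omega)] at c2
    rw [c0, wid_up (by omega)] at c1
    omega
  -- the hub
  have hhub : ∀ b t : ℕ, b < m → (m + 1 - b).factorial ∣ t →
      t + (m + 1 - b).factorial ≤ (m + 1).factorial →
      ∃ r < m + 1 - b, ∀ l : Pt m, l.h = m - (b + 1) →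
        ¬ ((a l).s = m * (t + (m - b).factorial * r) + b ∧ (a l).i = 0) := by
    intro b t hb ht htle
    by_contra hcon
    push Not at hcon
    have h0 : ∀ r, ∃ l : Pt m, r < m + 1 - b →
        (l.h = m - (b + 1) ∧ (a l).s = m * (t + (m - b).factorial * r) + b ∧ (a l).i = 0) := by
      intro r
      by_cases hr : r < m + 1 - b
      · obtain ⟨l, h1, h2⟩ := hcon r hr
        exact ⟨l, fun _ => ⟨h1, h2⟩⟩
      · have hN : 0 < NN m := Nat.mul_pos hm (Nat.factorial_pos _)
        exact ⟨⟨m, 0, 0, by omega, hN, by rw [wid_mid]; omega⟩, fun h => absurd h hr⟩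
    choose l hl using h0
    have hz : sib m (m * t + b) 0 < NN m := by
      refine sib_lt hm ?_ ?_
      · refine node_lt (t := t + 1) (by rw [Nat.mul_add]; omega) ?_
        have := Nat.factorial_pos (m + 1 - b)
        omega
      · rw [Nat.mul_add_mod, Nat.mod_eq_of_lt hb]
        omega
    have h1 : (range (m + 1 - b)).card ≤
        ((level (Pt.h (m := m)) (m - (b + 1))).filter
          fun x => x.s = sib m (m * t + b) 0).card := by
      refine card_le_card_of_injOn l ?_ ?_
      · intro r hr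
        have hr' : r < m + 1 - b := by simpa using hr
        obtain ⟨k1, k2, k3⟩ := hl r hr'
        refine mem_coe.mpr (mem_filter.mpr ⟨mem_filter.mpr ⟨mem_univ _, k1⟩, ?_⟩)
        obtain ⟨j1, j2, j3, j4⟩ := ha (l r) (by omega)
        have k4 : (a (l r)).s = sib m (m * t + b) r := by rw [k2, sib_base hm hb ht]
        have k5 : (m * t + b) % m = b := by rw [Nat.mul_add_mod, Nat.mod_eq_of_lt hb]
        have k6 := (below hm j2 j1).2.2 (by rw [k4, br_sib hm, k5]; omega) k3
        rw [k6, k4, sib_sib hm (by rw [k5]; exact hr')]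
      · intro r hr r' hr' hrr
        have q1 : r < m + 1 - b := by simpa using hr
        have q2 : r' < m + 1 - b := by simpa using hr'
        have k2 := (hl r q1).2.1
        have k2' := (hl r' q2).2.1
        have hrr' : l r = l r' := hrr
        rw [hrr', k2'] at k2
        have k3 : m * (t + (m - b).factorial * r') = m * (t + (m - b).factorial * r) := by omega
        have k4 := Nat.eq_of_mul_eq_mul_left hm k3
        have k5 : (m - b).factorial * r' = (m - b).factorial * r := by omega
        exact (Nat.eq_of_mul_eq_mul_left (Nat.factorial_pos _) k5).symm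
    rw [card_range, card_node (by omega) hz, wid_low (by omega)] at h1
    omega
  -- descend
  have hmain : ∀ b ≤ m, ∃ t, (m + 1 - b).factorial ∣ t ∧
      t + (m + 1 - b).factorial ≤ (m + 1).factorial ∧
      ∀ b', 1 ≤ b' → b' ≤ b → ∀ s, m * t + (b - 1) ≤ s → s < m * (t + (m + 1 - b).factorial) →
        ∀ l : Pt m, l.h = m - b' → ¬ ((a l).s = s ∧ (a l).i = 0) := by
    intro b
    induction b with
    | zero =>
      intro _
      exact ⟨0, dvd_zero _, by simp, fun b' h1 h2 => by omega⟩
    | succ b ih =>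
      intro hb
      obtain ⟨t, ht1, ht2, ht3⟩ := ih (by omega)
      obtain ⟨r, hr, hr2⟩ := hhub b t (by omega) ht1 ht2
      have hsub : m + 1 - (b + 1) = m - b := by omega
      have hfs := fact_split (m := m) (b := b) (by omega)
      have hle : (m - b).factorial * r + (m - b).factorial ≤ (m + 1 - b).factorial := by
        rw [hfs]
        calc _ = (r + 1) * (m - b).factorial := by ring
          _ ≤ _ := Nat.mul_le_mul_right _ hr
      have hdv : (m - b).factorial ∣ t + (m - b).factorial * r := by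
        refine Dvd.dvd.add ?_ (Dvd.intro _ rfl)
        exact (Nat.factorial_dvd_factorial (by omega)).trans ht1
      rw [hsub]
      refine ⟨t + (m - b).factorial * r, hdv, by omega, ?_⟩
      intro b' hb1 hb2 s hs1 hs2
      have hub : t + (m - b).factorial * r + (m - b).factorial ≤ t + (m + 1 - b).factorial := by
        omega
      rcases Nat.lt_or_ge b' (b + 1) with h | h
      · refine ht3 b' hb1 (by omega) s ?_ ?_
        · refine le_trans ?_ hs1
          have : m * t ≤ m * (t + (m - b).factorial * r) := Nat.mul_le_mul_left _ (by omega)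
          omega
        · exact lt_of_lt_of_le hs2 (Nat.mul_le_mul_left _ hub)
      · have hbb : b' = b + 1 := by omega
        subst hbb
        clear ht3
        obtain ⟨d, rfl⟩ := Nat.exists_eq_add_of_le hs1
        induction d with
        | zero => exact hr2
        | succ d ihd =>
          have e1 : m * (t + (m - b).factorial * r) + (b + 1 - 1) + (d + 1) =
            (m * (t + (m - b).factorial * r) + (b + 1 - 1) + d) + 1 := by ring
          rw [e1] at hs2 ⊢
          refine hprop (b + 1) _ hb1 hb ?_ ?_ (ihd (by omega) (by omega))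
          · exact node_lt hs2 (by omega)
          · exact br_inside hm (by omega) hdv (by omega) hs2
  obtain ⟨t, ht1, ht2, ht3⟩ := hmain m le_rfl
  have hfac : (m + 1 - m).factorial = 1 := by
    rw [show m + 1 - m = 1 by omega, Nat.factorial_one]
  rw [hfac] at ht2 ht3
  have hs1 : m * t + (m - 1) < m * (t + 1) := by rw [Nat.mul_add]; omega
  let x : Pt m := ⟨m, m * t + (m - 1), 0, by omega, node_lt hs1 ht2, by rw [wid_mid]; omega⟩
  have hx2 : 2 ≤ (pt x).card := (h𝒞 _ (hpt x)).2.2
  obtain ⟨y, hy, hyx⟩ := exists_mem_ne (lt_of_lt_of_le one_lt_two hx2) x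
  -- there is an element of the chain of `x` below the middle
  have hlow : ∃ l ∈ pt x, l.h < m := by
    rcases lt_trichotomy y.h m with h | h | h
    · exact ⟨y, hy, h⟩
    · exact absurd (heq _ (hpt x) _ hy _ (hmem x) h) hyx
    · have h1 : pt y = pt x := (huniq y (pt x) (hpt x) hy).symm
      refine ⟨u y, ?_, ?_⟩
      · rw [← h1]; exact hu y
      · rw [hu']; omega
  obtain ⟨l, hl, hlm⟩ := hlow
  have hptl : pt l = pt x := (huniq l (pt x) (hpt x) hl).symm
  have hal : a l = x := (ha l hlm.le).2.2.2 x (by rw [hptl]; exact hmem x) rfl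
  refine ht3 (m - l.h) (by omega) (by omega) _ le_rfl hs1 l (by omega) ?_
  rw [hal]
  exact ⟨rfl, rfl⟩

/-! #### The poset is admissible -/

lemma exists_below (hm : 1 ≤ m) (x : Pt m) (hx : 0 < x.h) : ∃ y : Pt m, stp m y x := by
  have hxh := x.hh
  rcases Nat.lt_or_ge m x.h with h | h
  · refine ⟨⟨x.h - 1, x.s, 1, by omega, x.hs, ?_⟩, ?_, Or.inr ⟨?_, ?_⟩⟩
    · rw [wid_up (by omega)]
      omega
    · show x.h = x.h - 1 + 1
      omega
    · show m ≤ x.h - 1
      omega
    · show x.s = rt m (x.h - 1) x.s 1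
      unfold rt
      rw [if_neg (by omega)]
  · have hw : 0 < wid m (x.h - 1) := by
      rw [wid_low (by omega)]
      omega
    rcases br_cases (m := m) x.s (m - (x.h - 1)) with h1 | h1 | h1
    · refine ⟨⟨x.h - 1, x.s, 0, by omega, x.hs, hw⟩, ?_, Or.inl ⟨?_, Or.inl ⟨h1, rfl, fun _ => rfl⟩⟩⟩
      · show x.h = x.h - 1 + 1
        omega
      · show x.h - 1 < m
        omega
    · have b1 : br m x.s = x.s % m + 1 := br_eq_of_le (by omega)
      have b2 : x.s % m < m := Nat.mod_lt _ hm
      refine ⟨⟨x.h - 1, sib m x.s 0, 0, by omega, sib_lt hm x.hs (by omega), hw⟩, ?_,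
        Or.inl ⟨?_, Or.inr (Or.inl ⟨h1, ⟨0, by omega, rfl⟩, fun _ => rfl⟩)⟩⟩
      · show x.h = x.h - 1 + 1
        omega
      · show x.h - 1 < m
        omega
    · refine ⟨⟨x.h - 1, x.s, 0, by omega, x.hs, hw⟩, ?_, Or.inl ⟨?_, Or.inr (Or.inr ⟨h1, rfl⟩)⟩⟩
      · show x.h = x.h - 1 + 1
        omega
      · show x.h - 1 < m
        omega

lemma NN_pos (hm : 1 ≤ m) : 0 < NN m := Nat.mul_pos hm (Nat.factorial_pos _)

theorem admissible (hm : 1 ≤ m) : Admissible (2 * m) (Pt.h (m := m)) where
  nonempty := ⟨⟨m, 0, 0, by omega, NN_pos hm, by rw [wid_mid]; omega⟩⟩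
  lv_le x := by have := x.hh; omega
  lv_minimal x hx := by
    by_contra h
    obtain ⟨y, hy⟩ := exists_below hm x (Nat.pos_of_ne_zero h)
    have h1 := lt_of_stp hy
    exact absurd (hx h1.le) (not_le_of_gt h1)
  lv_covers x y h := (stp_of_covBy h).1
  symm i hi := by
    rw [card_level (by omega), card_level (by omega)]
    congr 1
    unfold wid
    omega
  unimodal := by
    refine ⟨m, by omega, ?_, ?_⟩
    · intro i hi
      rw [card_level (by omega), card_level (by omega), wid_low (by omega), wid_low (by omega)]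
      exact Nat.mul_le_mul_left _ (by omega)
    · intro i hi hi2
      rw [card_level (by omega), card_level (by omega), wid_up (by omega), wid_up (by omega)]
      exact Nat.mul_le_mul_left _ (by omega)
  matching := by
    classical
    intro i hi X hX _
    have hN : (0 : ℚ) < NN m := by exact_mod_cast NN_pos hm
    have hiff : ∀ y ∈ level (Pt.h (m := m)) (i + 1), (∃ x ∈ X, x < y) ↔ ∃ x ∈ X, stp m x y := by
      intro y hy
      have hyh : y.h = i + 1 := (mem_filter.mp hy).2
      constructor
      · rintro ⟨x, hx, hxy⟩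
        have hxh : x.h = i := (mem_filter.mp (hX hx)).2
        exact ⟨x, hx, (lt_iff_stp (by omega)).mp hxy⟩
      · rintro ⟨x, hx, hxy⟩
        exact ⟨x, hx, lt_of_stp hxy⟩
    rw [filter_congr hiff, card_level (by omega), card_level (by omega)]
    push_cast
    rcases Nat.lt_or_ge i m with h | h
    · have h1 := lower_nm hm h X hX
      rw [wid_low (by omega), wid_low (by omega)]
      push_cast
      rw [div_le_div_iff₀ (by positivity) (by positivity)]
      have h2 : (X.card : ℚ) * (i + 2) ≤ (((level (Pt.h (m := m)) (i + 1)).filter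
          fun x => ∃ y ∈ X, stp m y x).card : ℚ) * (i + 1) := by exact_mod_cast h1
      nlinarith [mul_le_mul_of_nonneg_left h2 hN.le]
    · have h1 := upper_nm h hi X hX
      have e1 : wid m i = 2 * m + 1 - i := wid_up h
      have e2 : wid m (i + 1) = 2 * m - i := by rw [wid_up (by omega)]; omega
      rw [e1, e2]
      have p1 : (0 : ℚ) < ((2 * m + 1 - i : ℕ) : ℚ) := by
        have : 0 < 2 * m + 1 - i := by omega
        exact_mod_cast this
      have p2 : (0 : ℚ) < ((2 * m - i : ℕ) : ℚ) := by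
        have : 0 < 2 * m - i := by omega
        exact_mod_cast this
      rw [div_le_div_iff₀ (by positivity) (by positivity)]
      have h2 : (X.card : ℚ) * ((2 * m - i : ℕ) : ℚ) ≤ (((level (Pt.h (m := m)) (i + 1)).filter
          fun x => ∃ y ∈ X, stp m y x).card : ℚ) * ((2 * m + 1 - i : ℕ) : ℚ) := by
        exact_mod_cast h1
      nlinarith [mul_le_mul_of_nonneg_left h2 hN.le]

/-! #### The symmetric chain partition -/

/-- The reflection of an element in the middle level. -/
def reflect (x : Pt m) : Pt m := ⟨2 * m - x.h, x.s, x.i, by omega, x.hs, by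
  have := x.hi
  have := x.hh
  unfold wid at *
  omega⟩

lemma dst_reflect (x : Pt m) : dst m (reflect x).h = dst m x.h := by
  have := x.hh
  show dst m (2 * m - x.h) = dst m x.h
  unfold dst
  omega

theorem has_partition (hm : 1 ≤ m) : HasPartition (2 * m) (Pt.h (m := m)) 1 := by
  classical
  let col : Pt m → ℕ × ℕ := fun x => (x.s, x.i + dst m x.h)
  let cls : Pt m → Finset (Pt m) := fun x => univ.filter fun y => col y = col x
  have hmem : ∀ x, x ∈ cls x := fun x => mem_filter.mpr ⟨mem_univ _, rfl⟩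
  refine ⟨univ.image cls, ?_, ?_⟩
  · intro C hC
    obtain ⟨x, _, rfl⟩ := mem_image.mp hC
    refine ⟨⟨x, hmem x⟩, ⟨?_, ?_⟩, card_pos.mpr ⟨x, hmem x⟩⟩
    · intro y hy z hz _
      have hy' : col y = col x := (mem_filter.mp (mem_coe.mp hy)).2
      have hz' : col z = col x := (mem_filter.mp (mem_coe.mp hz)).2
      have h1 : col y = col z := hy'.trans hz'.symm
      simp only [col, Prod.mk.injEq] at h1
      exact comparable_of_color hm h1.1 h1.2
    · intro i hi
      refine card_bij (fun y _ => reflect y) ?_ ?_ ?_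
      · intro y hy
        obtain ⟨h1, h2⟩ := mem_filter.mp hy
        have h3 : col y = col x := (mem_filter.mp h1).2
        refine mem_filter.mpr ⟨mem_filter.mpr ⟨mem_univ _, ?_⟩, ?_⟩
        · rw [← h3]
          simp only [col, dst_reflect]
          rfl
        · show 2 * m - y.h = 2 * m - i
          rw [h2]
      · intro y hy z hz hyz
        have h1 := (mem_filter.mp hy).2
        have h2 := (mem_filter.mp hz).2
        have h3 : (reflect y).s = (reflect z).s := congrArg Pt.s hyz
        have h4 : (reflect y).i = (reflect z).i := congrArg Pt.i hyz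
        exact Pt.ext (by omega) h3 h4
      · intro y hy
        obtain ⟨h1, h2⟩ := mem_filter.mp hy
        have h3 : col y = col x := (mem_filter.mp h1).2
        have h4 := y.hh
        refine ⟨reflect y, mem_filter.mpr ⟨mem_filter.mpr ⟨mem_univ _, ?_⟩, ?_⟩, ?_⟩
        · rw [← h3]
          simp only [col, dst_reflect]
          rfl
        · show 2 * m - y.h = i
          omega
        · exact Pt.ext (show 2 * m - (2 * m - y.h) = y.h by omega) rfl rfl
  · intro x
    refine ⟨cls x, ⟨mem_image.mpr ⟨x, mem_univ _, rfl⟩, hmem x⟩, ?_⟩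
    rintro C ⟨hC, hx⟩
    obtain ⟨z, _, rfl⟩ := mem_image.mp hC
    have h1 : col x = col z := (mem_filter.mp hx).2
    ext y
    simp only [cls, mem_filter, mem_univ, true_and, h1]

lemma HasPartition.mono {P : Type} [PartialOrder P] {n : ℕ} {lv : P → ℕ} {k k' : ℕ} (h : k ≤ k')
    (hk : HasPartition n lv k') : HasPartition n lv k := by
  obtain ⟨𝒞, h1, h2⟩ := hk
  exact ⟨𝒞, fun C hC => ⟨(h1 C hC).1, (h1 C hC).2.1, h.trans (h1 C hC).2.2⟩, h2⟩

theorem g_eq_one (hm : 1 ≤ m) : g (2 * m) (Pt.h (m := m)) = 1 := by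
  have hub : ∀ k ∈ {k | HasPartition (2 * m) (Pt.h (m := m)) k}, k ≤ 1 := by
    intro k hk
    by_contra hcon
    exact no_partition hm (HasPartition.mono (by omega) hk)
  apply le_antisymm
  · exact csSup_le' hub
  · exact le_csSup ⟨1, hub⟩ (has_partition hm)

end poset

theorem main :
    (∀ k : ℕ, 2 ≤ k → ∃ (P : Type) (_ : PartialOrder P) (_ : Fintype P) (n : ℕ) (lv : P → ℕ),
      Admissible n lv ∧ Fintype.card P = k * width P ∧ g n lv = 1) ∧
    ¬ Tendsto f (atTop ⊓ 𝓟 ratios) atTop := by
  have h1 : ∀ k : ℕ, 2 ≤ k → ∃ (P : Type) (_ : PartialOrder P) (_ : Fintype P) (n : ℕ)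
      (lv : P → ℕ), Admissible n lv ∧ Fintype.card P = k * width P ∧ g n lv = 1 := by
    intro k hk
    obtain ⟨m, rfl⟩ : ∃ m, k = m + 1 := ⟨k - 1, by omega⟩
    have hm : 1 ≤ m := by omega
    refine ⟨Pt m, instPO m, instFT m, 2 * m, Pt.h, admissible hm, ?_, g_eq_one hm⟩
    rw [card_Pt, width_eq hm]
    ring
  refine ⟨h1, ?_⟩
  intro hT
  have h2 : ∀ᶠ r in atTop ⊓ 𝓟 ratios, 2 ≤ f r := hT.eventually (eventually_ge_atTop 2)
  rw [eventually_inf_principal, eventually_atTop] at h2
  obtain ⟨R, hR⟩ := h2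
  obtain ⟨k, hk⟩ := exists_nat_ge (max R 2)
  have hk1 : R ≤ k := (le_max_left _ _).trans hk
  have hk2 : 2 ≤ k := by exact_mod_cast (le_max_right R 2).trans hk
  obtain ⟨P, i1, i2, n, lv, ha, hc, hg⟩ := h1 k hk2
  have hc' : (Fintype.card P : ℚ) = (k : ℚ) * width P := by exact_mod_cast hc
  have h3 := hR k hk1 ⟨P, i1, i2, n, lv, ha, hc'⟩
  have h4 : f k ≤ 1 := Nat.sInf_le ⟨P, i1, i2, n, lv, ha, hc', hg⟩
  omega


end Pool.Agent.Helper73.FS
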